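import Mathlib

/-!
Hyperbolic uniform disk graphs that need radius linear in the number of vertices.

The graph: a clique v_0, ..., v_k and, for every i < k, a vertex c_i and m pairwise nonadjacent
vertices a_(i,j), all of the latter adjacent to c_i and to v_0, ..., v_i, while c_i is not adjacent
to v_(i+1) (the remaining adjacencies are those of an explicit point configuration).

Write s(x,y) = sinh (d(x,y)/2).  It satisfies Ptolemy's inequality.  If m is a large constant, two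
of the a_(i,j) satisfy s > 8 sinh r by a packing argument, so s(v_l, c_i) is at most
(sinh r)/4 for l at most i, by Ptolemy.  Ptolemy again shows that the largest s(v_l,v_l') over
l, l' at most i at least doubles when i is replaced by i+1.  As it stays at most sinh r, the radius
r is at least (k-1) log 2.
-/

namespace Pool.Agent.Results.MP_1ad87a_co.LinearRadius

open UpperHalfPlane

/-- `p` is a disk representation of the graph `G` with radius `r`, in the hyperbolic plane `ℍ`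
(the upper half-plane with its metric of constant curvature `-1`). -/
def IsDiskRepresentation {V : Type} (G : SimpleGraph V) (r : ℝ) (p : V → ℍ) : Prop :=
  0 < r ∧ ∀ u v : V, u ≠ v → (G.Adj u v ↔ dist (p u) (p v) ≤ 2 * r)

/-- `G` is a hyperbolic uniform disk graph. -/
def IsHUDG {V : Type} (G : SimpleGraph V) : Prop :=
  ∃ (r : ℝ) (p : V → ℍ), IsDiskRepresentation G r p

/-- Auxiliary: hyperbolic sine of half of the distance. -/
noncomputable def sh (z w : ℍ) : ℝ := Real.sinh (dist z w / 2)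

lemma sh_comm (z w : ℍ) : sh z w = sh w z := by
  unfold sh; rw [dist_comm]

lemma sh_nonneg (z w : ℍ) : 0 ≤ sh z w := by
  unfold sh
  rw [Real.sinh_nonneg_iff]
  positivity

lemma dist_le_iff (z w : ℍ) (r : ℝ) : dist z w ≤ 2 * r ↔ sh z w ≤ Real.sinh r := by
  unfold sh
  rw [Real.sinh_le_sinh]
  constructor <;> intro h <;> linarith

lemma sh_eq (z w : ℍ) : sh z w = dist (z : ℂ) w / (2 * (√z.im * √w.im)) := by
  unfold sh
  rw [UpperHalfPlane.sinh_half_dist, Real.sqrt_mul z.im_pos.le]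

lemma dist_coe_eq (z w : ℍ) : dist (z : ℂ) w = 2 * (√z.im * √w.im) * sh z w := by
  have h1 : 0 < √z.im := Real.sqrt_pos.2 z.im_pos
  have h2 : 0 < √w.im := Real.sqrt_pos.2 w.im_pos
  rw [sh_eq]
  field_simp

lemma ptolemy_complex (x y z w : ℂ) :
    dist x y * dist z w ≤ dist x z * dist y w + dist x w * dist y z := by
  simp only [dist_eq_norm]
  rw [← norm_mul, ← norm_mul, ← norm_mul]
  have h : (x - y) * (z - w) = (x - z) * (y - w) - (x - w) * (y - z) := by ring
  rw [h]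
  exact norm_sub_le _ _

lemma ptolemy (x y z w : ℍ) : sh x y * sh z w ≤ sh x z * sh y w + sh x w * sh y z := by
  have hx : 0 < √x.im := Real.sqrt_pos.2 x.im_pos
  have hy : 0 < √y.im := Real.sqrt_pos.2 y.im_pos
  have hz : 0 < √z.im := Real.sqrt_pos.2 z.im_pos
  have hw : 0 < √w.im := Real.sqrt_pos.2 w.im_pos
  have h := ptolemy_complex (x : ℂ) y z w
  simp only [dist_coe_eq] at h
  have hpos : 0 < 4 * (√x.im * √y.im * (√z.im * √w.im)) := by positivity
  have h2 : 4 * (√x.im * √y.im * (√z.im * √w.im)) * (sh x y * sh z w) ≤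
      4 * (√x.im * √y.im * (√z.im * √w.im)) * (sh x z * sh y w + sh x w * sh y z) := by
    nlinarith [h]
  exact le_of_mul_le_mul_left h2 hpos

/-- Packing: many points at pairwise distance larger than `2 r` contain a pair which is
substantially farther apart. -/
lemma packing {m : ℕ} (hm : 262146 ≤ m) (S : ℝ) (hS : 0 < S) (a : Fin m → ℍ)
    (ha : ∀ i j, i ≠ j → S < sh (a i) (a j)) : ∃ i j, i ≠ j ∧ 8 * S ≤ sh (a i) (a j) := by
  classical
  by_contra hcon
  push Not at hcon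
  have hne : (Finset.univ : Finset (Fin m)).Nonempty := ⟨⟨0, by omega⟩, Finset.mem_univ _⟩
  set t : Fin m → ℝ := fun i => √(a i).im with ht
  have htpos : ∀ i, 0 < t i := fun i => Real.sqrt_pos.2 (a i).im_pos
  obtain ⟨i1, -, hi1⟩ := Finset.exists_min_image Finset.univ t hne
  obtain ⟨iM, -, hiM⟩ := Finset.exists_max_image Finset.univ t hne
  have hmin : ∀ k, t i1 ≤ t k := fun k => hi1 k (Finset.mem_univ k)
  have hmax : ∀ k, t k ≤ t iM := fun k => hiM k (Finset.mem_univ k)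
  have hlow : ∀ i j, i ≠ j → 2 * S * (t i * t j) < dist (a i : ℂ) (a j) := by
    intro i j hij
    rw [dist_coe_eq]
    have := mul_lt_mul_of_pos_left (ha i j hij) (mul_pos (htpos i) (htpos j))
    nlinarith
  have hup : ∀ i j, dist (a i : ℂ) (a j) ≤ 16 * S * (t i * t j) := by
    intro i j
    by_cases hij : i = j
    · subst hij
      rw [dist_self]
      have := mul_pos (htpos i) (htpos i)
      positivity
    · rw [dist_coe_eq]
      have := mul_lt_mul_of_pos_left (hcon i j hij) (mul_pos (htpos i) (htpos j))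
      nlinarith
  have ht16 : ∀ k, k ≠ iM → t k < 16 * t i1 := by
    intro k hk
    have h1 := hlow iM k (Ne.symm hk)
    have h2 : dist (a iM : ℂ) (a k) ≤ dist (a iM : ℂ) (a i1) + dist (a i1 : ℂ) (a k) :=
      dist_triangle _ _ _
    have h3 := hup iM i1
    have h4 := hup i1 k
    have h5 : S * (t i1 * t k) ≤ S * (t i1 * t iM) :=
      mul_le_mul_of_nonneg_left (mul_le_mul_of_nonneg_left (hmax k) (htpos i1).le) hS.le
    have h6 : S * t iM * (2 * t k) < S * t iM * (32 * t i1) := by nlinarith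
    have h7 := lt_of_mul_lt_mul_left h6 (mul_pos hS (htpos iM)).le
    linarith
  set δ : ℝ := S * (t i1 * t i1) with hδ
  have hδpos : 0 < δ := mul_pos hS (mul_pos (htpos i1) (htpos i1))
  have hnear : ∀ k, k ≠ iM → dist (a k : ℂ) (a i1) < 256 * δ := by
    intro k hk
    have h1 := hup k i1
    have h2 : S * (t i1 * t k) < S * (t i1 * (16 * t i1)) :=
      mul_lt_mul_of_pos_left (mul_lt_mul_of_pos_left (ht16 k hk) (htpos i1)) hS
    nlinarith
  have hfar : ∀ j k, j ≠ k → 2 * δ < dist (a j : ℂ) (a k) := by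
    intro j k hjk
    have h1 := hlow j k hjk
    have h2 : t i1 * t i1 ≤ t j * t k :=
      mul_le_mul (hmin j) (hmin k) (htpos i1).le (htpos j).le
    have h3 := mul_le_mul_of_nonneg_left h2 hS.le
    nlinarith
  let f : Fin m → ℤ × ℤ := fun k =>
    (⌊((a k : ℂ).re - (a i1 : ℂ).re) / δ⌋, ⌊((a k : ℂ).im - (a i1 : ℂ).im) / δ⌋)
  have hbound : ∀ x : ℝ, |x| < 256 * δ → ⌊x / δ⌋ ∈ Finset.Icc (-256 : ℤ) 255 := by
    intro x hx
    rw [abs_lt] at hx
    rw [Finset.mem_Icc]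
    constructor
    · rw [Int.le_floor, le_div_iff₀ hδpos]
      push_cast
      linarith
    · have h1 : ⌊x / δ⌋ < 256 := by
        rw [Int.floor_lt, div_lt_iff₀ hδpos]
        push_cast
        linarith
      omega
  obtain ⟨T, hT⟩ : ∃ T : Finset (ℤ × ℤ),
      T = (Finset.Icc (-256 : ℤ) 255) ×ˢ (Finset.Icc (-256 : ℤ) 255) := ⟨_, rfl⟩
  have hmaps : Set.MapsTo f ((Finset.univ : Finset (Fin m)).erase iM) T := by
    intro k hk
    have hk' : k ≠ iM := Finset.ne_of_mem_erase (Finset.mem_coe.1 hk)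
    have h1 := hnear k hk'
    rw [dist_eq_norm] at h1
    rw [Finset.mem_coe, hT, Finset.mem_product]
    constructor
    · apply hbound
      rw [← Complex.sub_re]
      exact lt_of_le_of_lt (Complex.abs_re_le_norm _) h1
    · apply hbound
      rw [← Complex.sub_im]
      exact lt_of_le_of_lt (Complex.abs_im_le_norm _) h1
  have hcardT : T.card = 262144 := by
    have h512 : ((255 : ℤ) + 1 - (-256)).toNat = 512 := rfl
    rw [hT, Finset.card_product, Int.card_Icc, h512]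
  have hcardI : ((Finset.univ : Finset (Fin m)).erase iM).card = m - 1 := by
    rw [Finset.card_erase_of_mem (Finset.mem_univ _), Finset.card_univ, Fintype.card_fin]
  have hcard : T.card < ((Finset.univ : Finset (Fin m)).erase iM).card := by
    rw [hcardT, hcardI]
    omega
  obtain ⟨j, hj, k, hk, hjk, hfjk⟩ := Finset.exists_ne_map_eq_of_card_lt_of_maps_to hcard hmaps
  have hfar' := hfar j k hjk
  have e1 : ⌊((a j : ℂ).re - (a i1 : ℂ).re) / δ⌋ = ⌊((a k : ℂ).re - (a i1 : ℂ).re) / δ⌋ :=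
    congrArg Prod.fst hfjk
  have e2 : ⌊((a j : ℂ).im - (a i1 : ℂ).im) / δ⌋ = ⌊((a k : ℂ).im - (a i1 : ℂ).im) / δ⌋ :=
    congrArg Prod.snd hfjk
  have g1 := Int.abs_sub_lt_one_of_floor_eq_floor e1
  have g2 := Int.abs_sub_lt_one_of_floor_eq_floor e2
  have hconv : ∀ x y z : ℝ, |(x - z) / δ - (y - z) / δ| < 1 → |x - y| < δ := by
    intro x y z h
    have h1 : (x - z) / δ - (y - z) / δ = (x - y) / δ := by ring
    rw [h1, abs_div, abs_of_pos hδpos, div_lt_one hδpos] at h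
    exact h
  have k1 := hconv _ _ _ g1
  have k2 := hconv _ _ _ g2
  have h8 : dist (a j : ℂ) (a k) ≤ |(a j : ℂ).re - (a k : ℂ).re| + |(a j : ℂ).im - (a k : ℂ).im| := by
    rw [dist_eq_norm, ← Complex.sub_re, ← Complex.sub_im]
    exact Complex.norm_le_abs_re_add_abs_im _
  linarith

/-- Lower bound for the first step, from the triangle inequality. -/
lemma base_bound (S : ℝ) (x y c : ℍ) (h1 : sh x c ≤ S / 4) (h2 : S < sh y c) :
    3 * S ≤ (4 + 2 * S) * sh x y := by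
  have htri : dist y c ≤ dist x y + dist x c := by
    rw [dist_comm x y]; exact dist_triangle _ _ _
  have h3 : Real.sinh (dist y c / 2) ≤ Real.sinh (dist x y / 2 + dist x c / 2) := by
    rw [Real.sinh_le_sinh]; linarith
  rw [Real.sinh_add] at h3
  have hcosh : ∀ t : ℝ, 0 ≤ t → Real.cosh t ≤ 1 + Real.sinh t := by
    intro t ht
    have h4 := Real.cosh_sq t
    have h5 : 0 ≤ Real.sinh t := Real.sinh_nonneg_iff.2 ht
    have h6 : 0 < Real.cosh t := Real.cosh_pos t
    nlinarith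
  have hc1 := hcosh (dist x y / 2) (by positivity)
  have hc2 := hcosh (dist x c / 2) (by positivity)
  have hs1 : 0 ≤ sh x y := sh_nonneg x y
  have hs2 : 0 ≤ sh x c := sh_nonneg x c
  unfold sh at h1 h2 hs1 hs2 ⊢
  set A := Real.sinh (dist x y / 2)
  set B := Real.sinh (dist x c / 2)
  have h7 : A * Real.cosh (dist x c / 2) ≤ A * (1 + B) := mul_le_mul_of_nonneg_left hc2 hs1
  have h8 : Real.cosh (dist x y / 2) * B ≤ (1 + A) * B := mul_le_mul_of_nonneg_right hc1 hs2
  have h9 : A * B ≤ A * (S / 4) := mul_le_mul_of_nonneg_left h1 hs1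
  nlinarith

/-- The growth argument. -/
lemma growth {m : ℕ} (hm : 262146 ≤ m) (k : ℕ) (hk : 1 ≤ k) (S : ℝ) (hS : 0 < S)
    (v c : ℕ → ℍ) (a : ℕ → Fin m → ℍ)
    (h1 : ∀ i ≤ k, ∀ j ≤ k, sh (v i) (v j) ≤ S)
    (h2 : ∀ i < k, ∀ j j', j ≠ j' → S < sh (a i j) (a i j'))
    (h3 : ∀ i < k, ∀ l ≤ i, ∀ j, sh (v l) (a i j) ≤ S)
    (h4 : ∀ i < k, ∀ j, sh (c i) (a i j) ≤ S)
    (h5 : ∀ i < k, S < sh (v (i + 1)) (c i)) :
    3 * (2 : ℝ) ^ (k - 1) ≤ 4 + 2 * S := by
  have hnear : ∀ i < k, ∀ l ≤ i, sh (v l) (c i) ≤ S / 4 := by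
    intro i hi l hl
    obtain ⟨j, j', hjj', hfar⟩ := packing hm S hS (a i) (h2 i hi)
    have hp := ptolemy (v l) (c i) (a i j) (a i j')
    have e1 := h3 i hi l hl j
    have e2 := h3 i hi l hl j'
    have e3 := h4 i hi j
    have e4 := h4 i hi j'
    have f1 : sh (v l) (a i j) * sh (c i) (a i j') ≤ S * S :=
      mul_le_mul e1 e4 (sh_nonneg _ _) hS.le
    have f2 : sh (v l) (a i j') * sh (c i) (a i j) ≤ S * S :=
      mul_le_mul e2 e3 (sh_nonneg _ _) hS.le
    have f3 : sh (v l) (c i) * (8 * S) ≤ sh (v l) (c i) * sh (a i j) (a i j') :=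
      mul_le_mul_of_nonneg_left hfar (sh_nonneg _ _)
    have f4 : S * (4 * sh (v l) (c i)) ≤ S * S := by nlinarith
    have f5 := le_of_mul_le_mul_left f4 hS
    linarith
  have hgrow : ∀ i, i + 1 ≤ k → ∃ l ≤ i + 1, ∃ l' ≤ i + 1,
      (2 : ℝ) ^ i * sh (v 0) (v 1) ≤ sh (v l) (v l') := by
    intro i
    induction i with
    | zero =>
      intro _
      exact ⟨0, by omega, 1, by omega, by simp⟩
    | succ i ih =>
      intro hi
      obtain ⟨l, hl, l', hl', hll'⟩ := ih (by omega)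
      have n1 := hnear (i + 1) (by omega) l hl
      have n2 := hnear (i + 1) (by omega) l' hl'
      have n3 := h5 (i + 1) (by omega)
      have hp := ptolemy (v l) (v l') (v (i + 1 + 1)) (c (i + 1))
      have g1 : sh (v l) (v (i + 1 + 1)) * sh (v l') (c (i + 1)) ≤
          sh (v l) (v (i + 1 + 1)) * (S / 4) := mul_le_mul_of_nonneg_left n2 (sh_nonneg _ _)
      have g2 : sh (v l) (c (i + 1)) * sh (v l') (v (i + 1 + 1)) ≤
          (S / 4) * sh (v l') (v (i + 1 + 1)) := mul_le_mul_of_nonneg_right n1 (sh_nonneg _ _)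
      have g3 : sh (v l) (v l') * S ≤ sh (v l) (v l') * sh (v (i + 1 + 1)) (c (i + 1)) :=
        mul_le_mul_of_nonneg_left n3.le (sh_nonneg _ _)
      have g4 : S * (4 * sh (v l) (v l')) ≤
          S * (sh (v l) (v (i + 1 + 1)) + sh (v l') (v (i + 1 + 1))) := by nlinarith
      have g5 := le_of_mul_le_mul_left g4 hS
      have g6 : (2 : ℝ) ^ (i + 1) * sh (v 0) (v 1) ≤ 2 * sh (v l) (v l') := by
        rw [pow_succ]; linarith
      by_cases hc : 2 * sh (v l) (v l') ≤ sh (v l) (v (i + 1 + 1))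
      · exact ⟨l, by omega, i + 1 + 1, le_refl _, by linarith⟩
      · exact ⟨l', by omega, i + 1 + 1, le_refl _, by push Not at hc; linarith⟩
  obtain ⟨l, hl, l', hl', hll'⟩ := hgrow (k - 1) (by omega)
  have hfin := h1 l (by omega) l' (by omega)
  have hbase := base_bound S (v 0) (v 1) (c 0) (hnear 0 (by omega) 0 (le_refl 0))
    (h5 0 (by omega))
  have hpow : (0 : ℝ) < 2 ^ (k - 1) := by positivity
  have h6 : (2 : ℝ) ^ (k - 1) * (3 * S) ≤ (2 : ℝ) ^ (k - 1) * ((4 + 2 * S) * sh (v 0) (v 1)) :=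
    mul_le_mul_of_nonneg_left hbase hpow.le
  have h7 : (4 + 2 * S) * ((2 : ℝ) ^ (k - 1) * sh (v 0) (v 1)) ≤ (4 + 2 * S) * S :=
    mul_le_mul_of_nonneg_left (by linarith) (by linarith)
  have h8 : S * (3 * (2 : ℝ) ^ (k - 1)) ≤ S * (4 + 2 * S) := by nlinarith
  exact le_of_mul_le_mul_left h8 hS

/-- The membership condition for explicit points. -/
lemma sh_le_iff (z w : ℍ) (S : ℝ) (hS : 0 < S) :
    sh z w ≤ S ↔ (z.re - w.re) ^ 2 + (z.im - w.im) ^ 2 ≤ 4 * S ^ 2 * (z.im * w.im) := by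
  have h1 : 0 < √z.im := Real.sqrt_pos.2 z.im_pos
  have h2 : 0 < √w.im := Real.sqrt_pos.2 w.im_pos
  have h3 : √z.im ^ 2 = z.im := Real.sq_sqrt z.im_pos.le
  have h4 : √w.im ^ 2 = w.im := Real.sq_sqrt w.im_pos.le
  have h5 : (dist (z : ℂ) w) ^ 2 = (z.re - w.re) ^ 2 + (z.im - w.im) ^ 2 := by
    rw [Complex.dist_eq, ← Complex.normSq_eq_norm_sq, Complex.normSq_apply]
    simp only [Complex.sub_re, Complex.sub_im, UpperHalfPlane.coe_re, UpperHalfPlane.coe_im]
    ring
  have h6 : (4 : ℝ) * S ^ 2 * (z.im * w.im) = (2 * (√z.im * √w.im) * S) ^ 2 := by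
    rw [mul_pow, mul_pow, mul_pow, h3, h4]; ring
  rw [← h5, h6, sq_le_sq₀ dist_nonneg (by positivity), dist_coe_eq]
  have h7 : 0 < 2 * (√z.im * √w.im) := by positivity
  constructor
  · intro h
    exact mul_le_mul_of_nonneg_left h h7.le
  · intro h
    exact le_of_mul_le_mul_left h h7

/-- A point of the upper half-plane given by its coordinates. -/
def mkPt (x y : ℝ) (hy : 0 < y) : ℍ := UpperHalfPlane.mk ⟨x, y⟩ hy

lemma mkPt_re (x y : ℝ) (hy : 0 < y) : (mkPt x y hy).re = x := rfl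

lemma mkPt_im (x y : ℝ) (hy : 0 < y) : (mkPt x y hy).im = y := rfl

/-- The explicit configuration. -/
lemma exists_points (m k : ℕ) (hm : 0 < m) : ∃ S : ℝ, 0 < S ∧
    ∃ (v c : ℕ → ℍ) (a : ℕ → Fin m → ℍ),
      (∀ i ≤ k, ∀ j ≤ k, sh (v i) (v j) ≤ S) ∧
      (∀ i < k, ∀ j j', j ≠ j' → S < sh (a i j) (a i j')) ∧
      (∀ i < k, ∀ l ≤ i, ∀ j, sh (v l) (a i j) ≤ S) ∧
      (∀ i < k, ∀ j, sh (c i) (a i j) ≤ S) ∧
      (∀ i < k, S < sh (v (i + 1)) (c i)) := by
  have hm1 : (1 : ℝ) ≤ m := by exact_mod_cast hm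
  obtain ⟨M, hM⟩ : ∃ M : ℝ, M = m := ⟨_, rfl⟩
  rw [← hM] at hm1
  have hMpos : 0 < M := by linarith
  obtain ⟨q, hq⟩ : ∃ q : ℝ, q = 1 / (16 * M ^ 2) := ⟨_, rfl⟩
  have hqpos : 0 < q := by rw [hq]; positivity
  have hqM : q * (16 * M ^ 2) = 1 := by rw [hq]; field_simp
  have hq1 : q ≤ 1 / 16 := by
    have : (1 : ℝ) ≤ M ^ 2 := by nlinarith
    nlinarith
  have hqlt1 : q < 1 := by linarith
  obtain ⟨S, hS⟩ : ∃ S : ℝ, S = 1 / q ^ (k + 1) := ⟨_, rfl⟩
  have hqpow : ∀ i : ℕ, 0 < q ^ i := fun i => pow_pos hqpos i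
  have hqle1 : ∀ i : ℕ, q ^ i ≤ 1 := fun i => pow_le_one₀ hqpos.le hqlt1.le
  have hqanti : ∀ i j : ℕ, i ≤ j → q ^ j ≤ q ^ i := fun i j hij =>
    pow_le_pow_of_le_one hqpos.le hqlt1.le hij
  have hSpos : 0 < S := by rw [hS]; have := hqpow (k + 1); positivity
  have hSq : S * q ^ (k + 1) = 1 := by
    rw [hS]; have := hqpow (k + 1); field_simp
  have hSqk : 1 ≤ S * q ^ k := by
    have h1 : S * q ^ (k + 1) = q * (S * q ^ k) := by rw [pow_succ]; ring
    rw [h1] at hSq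
    have h2 : 0 < S * q ^ k := mul_pos hSpos (hqpow k)
    nlinarith
  have hS16 : 16 * M ^ 2 ≤ S := by
    have h1 : q ^ (k + 1) ≤ q ^ 1 := hqanti 1 (k + 1) (by omega)
    rw [pow_one] at h1
    have h2 : 1 ≤ S * q := by
      rw [← hSq]; exact mul_le_mul_of_nonneg_left h1 hSpos.le
    have h3 : (16 * M ^ 2) * 1 ≤ (16 * M ^ 2) * (S * q) :=
      mul_le_mul_of_nonneg_left h2 (by positivity)
    nlinarith
  obtain ⟨y, hy⟩ : ∃ y : ℝ, y = 1 / (9 * M ^ 2) := ⟨_, rfl⟩
  have hypos : 0 < y := by rw [hy]; positivity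
  have hyM : y * (9 * M ^ 2) = 1 := by rw [hy]; field_simp
  have hy1 : y ≤ 1 := by
    have : (1 : ℝ) ≤ M ^ 2 := by nlinarith
    nlinarith
  obtain ⟨X, hX⟩ : ∃ X : ℝ, X = S / (2 * M) := ⟨_, rfl⟩
  have hXM : X * (2 * M) = S := by rw [hX]; field_simp
  have hXpos : 0 < X := by rw [hX]; positivity
  obtain ⟨x, hx⟩ : ∃ x : Fin m → ℝ, ∀ j : Fin m, x j = S * ((j : ℕ) : ℝ) / (3 * M ^ 2) :=
    ⟨fun j => S * ((j : ℕ) : ℝ) / (3 * M ^ 2), fun _ => rfl⟩
  have hxM : ∀ j, x j * (3 * M ^ 2) = S * ((j : ℕ) : ℝ) := by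
    intro j; rw [hx]; field_simp
  have hx0 : ∀ j, 0 ≤ x j := by intro j; rw [hx]; positivity
  have hxle : ∀ j, x j * (3 * M) ≤ S := by
    intro j
    have h1 : ((j : ℕ) : ℝ) ≤ M := by
      rw [hM]; exact_mod_cast j.2.le
    have h2 : x j * (3 * M) * M ≤ S * M := by
      have h3 := hxM j
      have h4 : S * ((j : ℕ) : ℝ) ≤ S * M := mul_le_mul_of_nonneg_left h1 hSpos.le
      nlinarith
    exact le_of_mul_le_mul_right h2 hMpos
  refine ⟨S, hSpos, fun i => mkPt 0 (q ^ i) (hqpow i), fun i => mkPt (X * q ^ i) (q ^ i) (hqpow i),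
    fun i j => mkPt (x j * q ^ i) (y * q ^ i) (mul_pos hypos (hqpow i)), ?_, ?_, ?_, ?_, ?_⟩
  · intro i hi j hj
    rw [sh_le_iff _ _ _ hSpos]
    simp only [mkPt_re, mkPt_im]
    have h1 := hqle1 i
    have h2 := hqle1 j
    have h3 := hqpow i
    have h4 := hqpow j
    have h5 : 1 ≤ S * q ^ i := le_trans hSqk (mul_le_mul_of_nonneg_left (hqanti i k hi) hSpos.le)
    have h6 : 1 ≤ S * q ^ j := le_trans hSqk (mul_le_mul_of_nonneg_left (hqanti j k hj) hSpos.le)
    have h7 : 1 * 1 ≤ (S * q ^ i) * (S * q ^ j) := mul_le_mul h5 h6 zero_le_one (by linarith)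
    nlinarith
  · intro i _ j j' hjj'
    rw [← not_le, sh_le_iff _ _ _ hSpos, not_le]
    simp only [mkPt_re, mkPt_im]
    have h1 : 1 ≤ (((j : ℕ) : ℝ) - ((j' : ℕ) : ℝ)) ^ 2 := by
      have h2 : ((j : ℕ) : ℤ) - ((j' : ℕ) : ℤ) ≠ 0 := by
        intro h3
        apply hjj'
        apply Fin.ext
        omega
      have h3 : 1 ≤ (((j : ℕ) : ℤ) - ((j' : ℕ) : ℤ)) ^ 2 := by
        have : 0 < (((j : ℕ) : ℤ) - ((j' : ℕ) : ℤ)) ^ 2 := by positivity
        omega
      exact_mod_cast h3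
    have h2 : (x j - x j') * (3 * M ^ 2) = S * (((j : ℕ) : ℝ) - ((j' : ℕ) : ℝ)) := by
      rw [sub_mul, hxM, hxM]; ring
    have h3 : (x j - x j') ^ 2 * (9 * M ^ 4) = S ^ 2 * (((j : ℕ) : ℝ) - ((j' : ℕ) : ℝ)) ^ 2 := by
      rw [← mul_pow, ← h2]; ring
    have h4 : S ^ 2 ≤ (x j - x j') ^ 2 * (9 * M ^ 4) := by
      rw [h3]; nlinarith [sq_nonneg S]
    have h5 : y ^ 2 * (81 * M ^ 4) = 1 := by
      have : y ^ 2 * (81 * M ^ 4) = (y * (9 * M ^ 2)) ^ 2 := by ring
      rw [this, hyM]; norm_num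
    have h6 : 4 * S ^ 2 * y ^ 2 < (x j - x j') ^ 2 := by
      have h7 : 0 < 81 * M ^ 4 := by positivity
      have h8 : 81 * M ^ 4 * (4 * S ^ 2 * y ^ 2) < 81 * M ^ 4 * (x j - x j') ^ 2 := by
        have h9 : 81 * M ^ 4 * (4 * S ^ 2 * y ^ 2) = 4 * S ^ 2 * (y ^ 2 * (81 * M ^ 4)) := by ring
        rw [h9, h5]
        have h10 : 0 < S ^ 2 := by positivity
        nlinarith
      exact lt_of_mul_lt_mul_left h8 h7.le
    have h7 : 0 < (q ^ i) ^ 2 := by have := hqpow i; positivity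
    have h8 := mul_lt_mul_of_pos_right h6 h7
    nlinarith
  · intro i hi l hl j
    rw [sh_le_iff _ _ _ hSpos]
    simp only [mkPt_re, mkPt_im]
    have hqi := hqpow i
    have hql := hqpow l
    have hil := hqanti l i hl
    have hl1 := hqle1 l
    have h1 : x j ^ 2 ≤ S ^ 2 * y := by
      have h2 : (x j * (3 * M)) ^ 2 ≤ S ^ 2 := by
        have h3 : 0 ≤ x j * (3 * M) := mul_nonneg (hx0 j) (by positivity)
        have := hxle j
        nlinarith
      have h3 : x j ^ 2 * (9 * M ^ 2) ≤ (S ^ 2 * y) * (9 * M ^ 2) := by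
        have e1 : x j ^ 2 * (9 * M ^ 2) = (x j * (3 * M)) ^ 2 := by ring
        have e2 : (S ^ 2 * y) * (9 * M ^ 2) = S ^ 2 * (y * (9 * M ^ 2)) := by ring
        rw [e1, e2, hyM]; linarith
      exact le_of_mul_le_mul_right h3 (by positivity)
    have h2 : (x j * q ^ i) ^ 2 ≤ S ^ 2 * y * (q ^ i * q ^ l) := by
      have e1 : (x j * q ^ i) ^ 2 = x j ^ 2 * (q ^ i * q ^ i) := by ring
      rw [e1]
      exact mul_le_mul h1 (mul_le_mul_of_nonneg_left hil hqi.le) (by positivity) (by positivity)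
    have h3 : (q ^ l - y * q ^ i) ^ 2 ≤ q ^ l * q ^ l := by
      have h4 : 0 < y * q ^ i := mul_pos hypos hqi
      have h5 : y * q ^ i ≤ q ^ l := by nlinarith
      nlinarith
    have h4 : 1 ≤ 3 * S ^ 2 * y * q ^ i := by
      have h5 : 1 ≤ S * q ^ i :=
        le_trans hSqk (mul_le_mul_of_nonneg_left (hqanti i k hi.le) hSpos.le)
      have h6 : 1 ≤ S * y := by
        have h7 : (9 * M ^ 2) * 1 ≤ (9 * M ^ 2) * (S * y) := by
          have e1 : (9 * M ^ 2) * (S * y) = S * (y * (9 * M ^ 2)) := by ring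
          rw [e1, hyM]; nlinarith
        exact le_of_mul_le_mul_left h7 (by positivity)
      have h7 : 1 * 1 ≤ (S * q ^ i) * (S * y) := mul_le_mul h5 h6 zero_le_one (by linarith)
      nlinarith
    have h5 : q ^ l * q ^ l ≤ 3 * S ^ 2 * y * (q ^ i * q ^ l) := by
      have h6 : q ^ l * 1 ≤ q ^ l * (3 * S ^ 2 * y * q ^ i) := mul_le_mul_of_nonneg_left h4 hql.le
      nlinarith
    nlinarith
  · intro i _ j
    rw [sh_le_iff _ _ _ hSpos]
    simp only [mkPt_re, mkPt_im]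
    have hqi := hqpow i
    have h1 : (X - x j) ^ 2 ≤ X ^ 2 := by
      have h2 : x j ≤ 2 * X := by
        have h3 := hxle j
        have h4 : x j * (3 * M) ≤ (2 * X) * (3 * M) := by nlinarith
        exact le_of_mul_le_mul_right h4 (by positivity)
      have := hx0 j
      nlinarith
    have h2 : (1 - y) ^ 2 ≤ 1 := by nlinarith
    have h3 : X ^ 2 + 1 ≤ 4 * S ^ 2 * y := by
      have h4 : (36 * M ^ 2) * (X ^ 2 + 1) ≤ (36 * M ^ 2) * (4 * S ^ 2 * y) := by
        have e1 : (36 * M ^ 2) * (X ^ 2 + 1) = 9 * (X * (2 * M)) ^ 2 + 36 * M ^ 2 := by ring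
        have e2 : (36 * M ^ 2) * (4 * S ^ 2 * y) = 16 * S ^ 2 * (y * (9 * M ^ 2)) := by ring
        rw [e1, e2, hXM, hyM]
        have h5 : 1 ≤ M ^ 2 := one_le_pow₀ hm1
        have h7 : (16 * M ^ 2) * (16 * M ^ 2) ≤ S * S :=
          mul_le_mul hS16 hS16 (by positivity) hSpos.le
        have h8 : M ^ 2 * 1 ≤ M ^ 2 * M ^ 2 := mul_le_mul_of_nonneg_left h5 (by positivity)
        linarith
      exact le_of_mul_le_mul_left h4 (by positivity)
    have h4 : ((X - x j) ^ 2 + (1 - y) ^ 2) * (q ^ i) ^ 2 ≤ (4 * S ^ 2 * y) * (q ^ i) ^ 2 :=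
      mul_le_mul_of_nonneg_right (by linarith) (by positivity)
    nlinarith
  · intro i _
    rw [← not_le, sh_le_iff _ _ _ hSpos, not_le]
    simp only [mkPt_re, mkPt_im]
    have hqi := hqpow i
    have h1 : 4 * S ^ 2 * q = X ^ 2 := by
      have h2 : (4 * M ^ 2) * (4 * S ^ 2 * q) = (4 * M ^ 2) * X ^ 2 := by
        have e1 : (4 * M ^ 2) * (4 * S ^ 2 * q) = S ^ 2 * (q * (16 * M ^ 2)) := by ring
        have e2 : (4 * M ^ 2) * X ^ 2 = (X * (2 * M)) ^ 2 := by ring
        rw [e1, e2, hqM, hXM]; ring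
      exact mul_left_cancel₀ (by positivity) h2
    have h2 : 4 * S ^ 2 * (q ^ (i + 1) * q ^ i) = (X * q ^ i) ^ 2 := by
      have e1 : 4 * S ^ 2 * (q ^ (i + 1) * q ^ i) = (4 * S ^ 2 * q) * (q ^ i) ^ 2 := by
        rw [pow_succ]; ring
      rw [e1, h1]; ring
    have h3 : 0 < (q ^ (i + 1) - q ^ i) ^ 2 := by
      have h4 : q ^ (i + 1) < q ^ i := by
        rw [pow_succ]; nlinarith
      have h5 : q ^ (i + 1) - q ^ i ≠ 0 := by linarith
      positivity
    rw [h2]
    nlinarith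

/-- The vertex type of the graph: a clique `v_0, ..., v_k`, and for every `i < k` a vertex `c_i`
together with `m` further vertices. -/
abbrev Vert (m k : ℕ) : Type := Fin (k + 1) ⊕ (Fin k × Option (Fin m))

/-- The positions of all vertices, from sequences. -/
def place {m : ℕ} (k : ℕ) (v c : ℕ → ℍ) (a : ℕ → Fin m → ℍ) : Vert m k → ℍ
  | Sum.inl i => v i
  | Sum.inr (i, none) => c i
  | Sum.inr (i, some j) => a i j

lemma card_vert (m k : ℕ) : Fintype.card (Vert m k) = k * (m + 2) + 1 := by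
  simp only [Vert, Fintype.card_sum, Fintype.card_fin, Fintype.card_prod, Fintype.card_option]
  ring

/-- The graph on `n` vertices for given `k`. -/
lemma exists_graph (m k : ℕ) (hm : 262146 ≤ m) (hk : 2 ≤ k) :
    ∃ G : SimpleGraph (Fin (k * (m + 2) + 1)), IsHUDG G ∧
      ∀ (r : ℝ) (p : Fin (k * (m + 2) + 1) → ℍ), IsDiskRepresentation G r p →
        ((k : ℝ) - 1) * Real.log 2 ≤ r := by
  classical
  obtain ⟨S, hS, v, c, a, h1, h2, h3, h4, h5⟩ := exists_points m k (by omega)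
  have e : Fin (k * (m + 2) + 1) ≃ Vert m k :=
    (finCongr (card_vert m k).symm).trans (Fintype.equivFin (Vert m k)).symm
  obtain ⟨P, hP⟩ : ∃ P : Vert m k → ℍ, P = place k v c a := ⟨_, rfl⟩
  obtain ⟨r0, hr0⟩ : ∃ r0 : ℝ, r0 = Real.arsinh S := ⟨_, rfl⟩
  have hsinh0 : Real.sinh r0 = S := by rw [hr0, Real.sinh_arsinh]
  have hr0pos : 0 < r0 := by rw [hr0, Real.arsinh_pos_iff]; exact hS
  let G : SimpleGraph (Fin (k * (m + 2) + 1)) :=
    { Adj := fun u w => u ≠ w ∧ dist (P (e u)) (P (e w)) ≤ 2 * r0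
      symm := ⟨fun u w h => ⟨h.1.symm, by rw [dist_comm]; exact h.2⟩⟩
      loopless := ⟨fun u h => h.1 rfl⟩ }
  have hGadj : ∀ u w, u ≠ w → (G.Adj u w ↔ dist (P (e u)) (P (e w)) ≤ 2 * r0) := by
    intro u w huw
    exact ⟨fun h => h.2, fun h => ⟨huw, h⟩⟩
  refine ⟨G, ⟨r0, fun u => P (e u), hr0pos, hGadj⟩, ?_⟩
  intro r p hp
  obtain ⟨hr, hadj⟩ := hp
  obtain ⟨p', hp'⟩ : ∃ p' : Vert m k → ℍ, p' = fun x => p (e.symm x) := ⟨_, rfl⟩
  have hiff : ∀ x y : Vert m k, x ≠ y →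
      (sh (p' x) (p' y) ≤ Real.sinh r ↔ sh (P x) (P y) ≤ S) := by
    intro x y hxy
    have hne : e.symm x ≠ e.symm y := fun h => hxy (e.symm.injective h)
    have h6 := hadj _ _ hne
    rw [hGadj _ _ hne, e.apply_symm_apply, e.apply_symm_apply, dist_le_iff, dist_le_iff,
      hsinh0] at h6
    rw [hp']
    exact h6.symm
  have hSr : 0 < Real.sinh r := Real.sinh_pos_iff.2 hr
  have hself : ∀ z : ℍ, sh z z ≤ Real.sinh r := by
    intro z
    unfold sh
    rw [dist_self]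
    simp [hSr.le]
  have hgrow := growth hm k (by omega) (Real.sinh r) hSr
    (fun i => if h : i < k + 1 then p' (Sum.inl ⟨i, h⟩) else UpperHalfPlane.I)
    (fun i => if h : i < k then p' (Sum.inr (⟨i, h⟩, none)) else UpperHalfPlane.I)
    (fun i j => if h : i < k then p' (Sum.inr (⟨i, h⟩, some j)) else UpperHalfPlane.I)
    (by
      intro i hi j hj
      have hi' : i < k + 1 := by omega
      have hj' : j < k + 1 := by omega
      simp only [hi', hj', dif_pos]
      by_cases hij : i = j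
      · subst hij; exact hself _
      · rw [hiff _ _ (by simp [hij]), hP]
        exact h1 i hi j hj)
    (by
      intro i hi j j' hjj'
      simp only [hi, dif_pos]
      rw [← not_le, hiff _ _ (by simp [hjj']), hP, not_le]
      exact h2 i hi j j' hjj')
    (by
      intro i hi l hl j
      have hl' : l < k + 1 := by omega
      simp only [hi, hl', dif_pos]
      rw [hiff _ _ (by simp), hP]
      exact h3 i hi l hl j)
    (by
      intro i hi j
      simp only [hi, dif_pos]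
      rw [hiff _ _ (by simp), hP]
      exact h4 i hi j)
    (by
      intro i hi
      have hi' : i + 1 < k + 1 := by omega
      simp only [hi, hi', dif_pos]
      rw [← not_le, hiff _ _ (by simp), hP, not_le]
      exact h5 i hi)
  have hexp : 2 * Real.sinh r ≤ Real.exp r := by
    rw [Real.sinh_eq]
    have := Real.exp_pos (-r)
    linarith
  have hpow2 : (2 : ℝ) ≤ 2 ^ (k - 1) := by
    calc (2 : ℝ) = 2 ^ 1 := by norm_num
      _ ≤ 2 ^ (k - 1) := pow_le_pow_right₀ (by norm_num) (by omega)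
  have h6 : (2 : ℝ) ^ (k - 1) ≤ Real.exp r := by linarith
  have h7 : Real.log ((2 : ℝ) ^ (k - 1)) ≤ r := by
    rw [← Real.log_exp r]
    exact Real.log_le_log (by positivity) h6
  rw [Real.log_pow] at h7
  have h8 : ((k - 1 : ℕ) : ℝ) = (k : ℝ) - 1 := by
    rw [Nat.cast_sub (by omega)]; norm_num
  rw [h8] at h7
  exact h7

/-- There is a constant `c > 0` such that for every constant `C > 0` there is a hyperbolic uniform
disk graph with some number `n ≥ 2` of vertices all of whose disk representations have radius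
larger than `C log n`, and in fact at least `c n`. -/
theorem result : ∃ c : ℝ, 0 < c ∧ ∀ C : ℝ, 0 < C →
    ∃ (n : ℕ) (G : SimpleGraph (Fin n)), 2 ≤ n ∧ IsHUDG G ∧
      ∀ (r : ℝ) (p : Fin n → ℍ), IsDiskRepresentation G r p →
        C * Real.log n < r ∧ c * n ≤ r := by
  obtain ⟨m, hm⟩ : ∃ m : ℕ, m = 262146 := ⟨_, rfl⟩
  have hlog2 : 0 < Real.log 2 := Real.log_pos (by norm_num)
  obtain ⟨c, hc⟩ : ∃ c : ℝ, c = Real.log 2 / (2 * (m + 3)) := ⟨_, rfl⟩
  have hmR : (0 : ℝ) ≤ m := Nat.cast_nonneg m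
  have hcpos : 0 < c := by rw [hc]; positivity
  have hcm : c * (2 * (m + 3)) = Real.log 2 := by rw [hc]; field_simp
  refine ⟨c, hcpos, ?_⟩
  intro C hC
  have hlo : ∀ᶠ x : ℝ in Filter.atTop, ‖Real.log x‖ ≤ (c / (2 * C)) * ‖id x‖ :=
    Real.isLittleO_log_id_atTop.def (by positivity)
  obtain ⟨N, hN⟩ := Filter.eventually_atTop.1 hlo
  obtain ⟨k, hk⟩ := exists_nat_ge (max N 2)
  have hk2 : 2 ≤ k := by
    have : (2 : ℝ) ≤ k := le_trans (le_max_right _ _) hk
    exact_mod_cast this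
  have hkN : N ≤ k := le_trans (le_max_left _ _) hk
  obtain ⟨G, hG, hGr⟩ := exists_graph m k (by omega) hk2
  refine ⟨k * (m + 2) + 1, G, by nlinarith, hG, ?_⟩
  intro r p hp
  have h1 := hGr r p hp
  have hkR : (2 : ℝ) ≤ k := by exact_mod_cast hk2
  obtain ⟨n, hn⟩ : ∃ n : ℝ, n = ((k * (m + 2) + 1 : ℕ) : ℝ) := ⟨_, rfl⟩
  rw [← hn]
  have hn' : n = k * (m + 2) + 1 := by rw [hn]; push_cast; ring
  have hnk : n ≤ k * (m + 3) := by rw [hn']; nlinarith
  have hkn : (k : ℝ) ≤ n := by rw [hn']; nlinarith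
  have hnpos : 0 < n := by linarith
  have hcn : c * n ≤ r := by
    have h2 : c * n ≤ c * (k * (m + 3)) := mul_le_mul_of_nonneg_left hnk hcpos.le
    have h3 : c * (k * (m + 3)) = k * Real.log 2 / 2 := by rw [← hcm]; ring
    nlinarith
  refine ⟨?_, hcn⟩
  have h2 := hN n (by linarith)
  simp only [id, Real.norm_eq_abs] at h2
  rw [abs_of_pos hnpos] at h2
  have h3 : Real.log n ≤ c / (2 * C) * n := le_trans (le_abs_self _) h2
  have h4 : C * Real.log n ≤ C * (c / (2 * C) * n) := mul_le_mul_of_nonneg_left h3 hC.le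
  have h5 : C * (c / (2 * C) * n) = c * n / 2 := by field_simp
  have h6 : 0 < c * n := mul_pos hcpos hnpos
  linarith

end Pool.Agent.Results.MP_1ad87a_co.LinearRadius
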